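import Pool.Agent.W837.GB.Defs

/-!
# GB-SCALE: operator scaling
-/

set_option autoImplicit false

namespace Pool.Agent.W230.GB

open Pool.Agent.W837.GB
open scoped Matrix ComplexOrder

variable {n m : ℕ}

lemma inj_of_det (U : Matrix (Fin m) (Fin m) ℂ) (h : U.det ≠ 0) :
    Function.Injective (Matrix.mulVecLin U) := by
  have h1 : IsUnit U := (Matrix.isUnit_iff_isUnit_det U).mpr (isUnit_iff_ne_zero.mpr h)
  exact Matrix.mulVec_injective_iff_isUnit.mpr h1

lemma map_top_of_det (U : Matrix (Fin m) (Fin m) ℂ) (h : U.det ≠ 0) :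
    (⊤ : Submodule ℂ (Fin m → ℂ)).map (Matrix.mulVecLin U) = ⊤ := by
  rw [Submodule.map_top, LinearMap.range_eq_top]
  exact LinearMap.surjective_of_injective (inj_of_det U h)

lemma finrank_map (U : Matrix (Fin m) (Fin m) ℂ) (h : U.det ≠ 0)
    (T : Submodule ℂ (Fin m → ℂ)) :
    Module.finrank ℂ (T.map (Matrix.mulVecLin U)) = Module.finrank ℂ T :=
  (Submodule.equivMapOfInjective _ (inj_of_det U h) T).finrank_eq.symm

lemma imS_conj (a : Fin n → Matrix (Fin m) (Fin m) ℂ) (U V : Matrix (Fin m) (Fin m) ℂ)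
    (T : Submodule ℂ (Fin m → ℂ)) :
    imS (fun j => U * a j * V) T =
      (imS a (T.map (Matrix.mulVecLin V))).map (Matrix.mulVecLin U) := by
  unfold imS
  rw [Submodule.map_iSup]
  congr 1
  funext j
  rw [Matrix.mulVecLin_mul, Matrix.mulVecLin_mul, Submodule.map_comp, Submodule.map_comp]

lemma ind_conj (a : Fin n → Matrix (Fin m) (Fin m) ℂ) (U V : Matrix (Fin m) (Fin m) ℂ)
    (hU : U.det ≠ 0) (hV : V.det ≠ 0) (h : Ind a) : Ind (fun j => U * a j * V) := by
  refine ⟨?_, fun T h0 h1 => ?_⟩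
  · rw [imS_conj, map_top_of_det V hV, h.1, map_top_of_det U hU]
  · rw [imS_conj, finrank_map U hU, ← finrank_map V hV T]
    refine h.2 _ ?_ ?_
    · intro hc
      apply h0
      rw [Submodule.eq_bot_iff] at hc ⊢
      intro x hx
      have h2 := hc _ (Submodule.mem_map_of_mem hx)
      exact inj_of_det V hV (by rw [h2, map_zero])
    · intro hc
      apply h1
      apply Submodule.eq_top_of_finrank_eq
      rw [← finrank_map V hV T, hc, finrank_top]

open scoped MatrixOrder in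
lemma psd_sqrt (A : Matrix (Fin m) (Fin m) ℂ) (hA : A.PosSemidef) :
    ∃ B : Matrix (Fin m) (Fin m) ℂ, A = Bᴴ * B := by
  obtain ⟨B, hB⟩ := CStarAlgebra.nonneg_iff_eq_star_mul_self.mp (Matrix.nonneg_iff_posSemidef.mpr hA)
  exact ⟨B, hB⟩

lemma det_conj_mul (U : Matrix (Fin m) (Fin m) ℂ) : (Uᴴ * U).det = ((‖U.det‖ ^ 2 : ℝ) : ℂ) := by
  rw [Matrix.det_mul, Matrix.det_conjTranspose, ← Complex.normSq_eq_norm_sq,
    Complex.normSq_eq_conj_mul_self]
  rfl

theorem scale (h1 : S_MIN) (h2 : S_LAG) : S_SCALE := by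
  intro n m a hm ha
  obtain ⟨b0, hb0, hη, hmin⟩ := h1 n m a hm ha
  have hlag := h2 n m a b0 hb0 hη hmin
  set η := eta a b0 with hηdef
  -- the capacity
  have hdb : 0 < b0.det.re := (Complex.lt_def.mp hb0.det_pos).1
  have hdη : 0 < η.det.re := (Complex.lt_def.mp hη.det_pos).1
  have hcap : cap a = η.det.re / b0.det.re := by
    unfold cap
    apply IsLeast.csInf_eq
    refine ⟨⟨b0, hb0, rfl⟩, ?_⟩
    rintro c ⟨b, hb, rfl⟩
    exact hmin b hb
  -- square roots
  obtain ⟨B, hB⟩ := psd_sqrt b0 hb0.posSemidef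
  obtain ⟨U, hU⟩ := psd_sqrt η⁻¹ hη.inv.posSemidef
  obtain ⟨V, hVdef⟩ : ∃ V, V = Bᴴ := ⟨_, rfl⟩
  have hV : V * Vᴴ = b0 := by
    rw [hVdef, Matrix.conjTranspose_conjTranspose]
    exact hB.symm
  have hηu : IsUnit η.det := isUnit_iff_ne_zero.mpr (by
    intro h
    rw [h] at hdη
    simp at hdη)
  have hbu : IsUnit b0.det := isUnit_iff_ne_zero.mpr (by
    intro h
    rw [h] at hdb
    simp at hdb)
  have hdU : η.det.re * ‖U.det‖ ^ 2 = 1 := by
    have h3 : η.det * ((‖U.det‖ ^ 2 : ℝ) : ℂ) = 1 := by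
      rw [← det_conj_mul, ← hU, ← Matrix.det_mul, Matrix.mul_nonsing_inv _ hηu, Matrix.det_one]
    have h4 := congrArg Complex.re h3
    rw [Complex.re_mul_ofReal, Complex.one_re] at h4
    exact h4
  have hdV : b0.det.re = ‖V.det‖ ^ 2 := by
    have h3 : b0.det = ((‖V.det‖ ^ 2 : ℝ) : ℂ) := by
      rw [← hV, Matrix.det_mul, mul_comm, ← Matrix.det_mul, det_conj_mul]
    rw [h3, Complex.ofReal_re]
  have hU0 : U.det ≠ 0 := by
    intro h
    rw [h] at hdU
    simp at hdU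
  have hV0 : V.det ≠ 0 := by
    intro h
    rw [h] at hdV
    simp at hdV
    linarith
  refine ⟨by rw [hcap]; positivity, U, V, hU0, hV0, ⟨?_, ?_⟩, ind_conj a U V hU0 hV0 ha, ?_⟩
  · have h3 : eta (fun j => U * a j * V) 1 = U * η * Uᴴ := by
      rw [hηdef]
      unfold eta
      rw [Matrix.mul_sum, Matrix.sum_mul]
      refine Finset.sum_congr rfl fun j _ => ?_
      rw [Matrix.conjTranspose_mul, Matrix.conjTranspose_mul, ← hV]
      simp only [Matrix.mul_one, Matrix.mul_assoc]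
    rw [h3]
    have h4 : Uᴴ * (U * η) = 1 := by
      rw [← Matrix.mul_assoc, ← hU, Matrix.nonsing_inv_mul _ hηu]
    exact mul_eq_one_comm.mp h4
  · have h3 : etas (fun j => U * a j * V) 1 = Vᴴ * (b0⁻¹ * V) := by
      rw [← hlag, hU]
      unfold etas
      rw [Matrix.sum_mul, Matrix.mul_sum]
      refine Finset.sum_congr rfl fun j _ => ?_
      rw [Matrix.conjTranspose_mul, Matrix.conjTranspose_mul]
      simp only [Matrix.mul_one, Matrix.mul_assoc]
    rw [h3]
    have h4 : (b0⁻¹ * V) * Vᴴ = 1 := by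
      rw [Matrix.mul_assoc, hV, Matrix.nonsing_inv_mul _ hbu]
    exact mul_eq_one_comm.mp h4
  · rw [hcap, ← hdV, div_mul_eq_mul_div, div_eq_one_iff_eq hdb.ne', ← mul_assoc, hdU, one_mul]

end Pool.Agent.W230.GB
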